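import Pool.Agent.Helper80.DR.NodeLemma2
import Pool.Agent.Helper80.DR.Chain2

set_option autoImplicit false

/-!
# SA-1 Core: `Helper80/DR/Core.lean` with an explicit number of multipliers

The same proof; the number `K` of multipliers is given together with the node lemma for
`η = ε/(1+1/δ)`, so that `δ` (and with it `K`) may depend on the sets.
-/

namespace Pool.Agent.Helper15.SA

open Finset Pool.Agent.Helper80.DC Pool.Agent.Helper80.DR

private theorem jensen_aux (X Y : Finset ℤ) (c : ℤ → ℤ → ℝ) (t : ℝ)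
    (ht : ∑ x ∈ X, ∑ y ∈ Y, c x y ≤ (X.card : ℝ) * Y.card * t) :
    (X.card : ℝ) * Y.card * Real.exp (-t) ≤ ∑ x ∈ X, ∑ y ∈ Y, Real.exp (-(c x y)) := by
  have h3 : ∑ x ∈ X, ∑ y ∈ Y, Real.exp (-t) * (t - c x y + 1)
      ≤ ∑ x ∈ X, ∑ y ∈ Y, Real.exp (-(c x y)) := by
    refine Finset.sum_le_sum fun x _ => Finset.sum_le_sum fun y _ => ?_
    have h4 : Real.exp (-(c x y)) = Real.exp (-t) * Real.exp (t - c x y) := by
      rw [← Real.exp_add]
      congr 1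
      ring
    rw [h4]
    exact mul_le_mul_of_nonneg_left (Real.add_one_le_exp _) (Real.exp_pos _).le
  have h5 : ∑ x ∈ X, ∑ y ∈ Y, Real.exp (-t) * (t - c x y + 1)
      = Real.exp (-t) * ((X.card : ℝ) * Y.card * (t + 1) - ∑ x ∈ X, ∑ y ∈ Y, c x y) := by
    have h6 : ∀ x ∈ X, ∑ y ∈ Y, Real.exp (-t) * (t - c x y + 1)
        = Real.exp (-t) * ((Y.card : ℝ) * (t + 1)) - Real.exp (-t) * ∑ y ∈ Y, c x y := by
      intro x _
      rw [← Finset.mul_sum, ← mul_sub]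
      congr 1
      rw [Finset.sum_add_distrib, Finset.sum_sub_distrib]
      simp only [Finset.sum_const, nsmul_eq_mul]
      ring
    rw [Finset.sum_congr rfl h6, Finset.sum_sub_distrib, Finset.sum_const, nsmul_eq_mul,
      ← Finset.mul_sum]
    ring
  have h7 : Real.exp (-t) * ((X.card : ℝ) * Y.card)
      ≤ Real.exp (-t) * ((X.card : ℝ) * Y.card * (t + 1) - ∑ x ∈ X, ∑ y ∈ Y, c x y) :=
    mul_le_mul_of_nonneg_left (by linarith) (Real.exp_pos _).le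
  calc (X.card : ℝ) * Y.card * Real.exp (-t) = Real.exp (-t) * ((X.card : ℝ) * Y.card) := by ring
    _ ≤ _ := h7
    _ = _ := h5.symm
    _ ≤ _ := h3

/-- [SA-1] -/
theorem core_of_node (ε δ : ℝ) (hε : 0 < ε) (hδ : 0 < δ) (K : ℕ) (hK : 0 < K)
    (hN : NodeProp2 (ε / (1 + 1 / δ)) K)
    (q : Fin K → ℤ) (X Y A : Finset ℤ) (S E : Finset ℕ) (e : Finset ℕ → ℤ → ℕ)
    (hX : X.Nonempty) (hY : Y.Nonempty) (hS : ∀ p ∈ S, p.Prime)
    (hcard : δ * Real.log ((X.card : ℝ) * Y.card) ≤ (S.card : ℝ))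
    (hinj : ∀ p ∈ S, Function.Injective (fun i => (q i : ZMod p)))
    (hq0 : ∀ p ∈ S, ∀ i, (q i : ZMod p) ≠ 0)
    (heE : ∀ H ⊆ S, ∀ y ∈ Y, e H y ∈ E) (hE : ∀ d ∈ E, ∀ p ∈ S, ¬ p ∣ d)
    (hA : ∀ i, ∀ H ⊆ S, ∀ y ∈ Y, q i * (∏ p ∈ H, (p : ℤ)) * (e H y : ℤ) * y ∈ A) :
    ((X.card : ℝ) * Y.card) ^ (1 - ε) ≤
      (E.card : ℝ) * ((Finset.image₂ (fun x a => x + a) X A).card : ℝ) := by
  have hB0 : 0 ≤ 1 / δ := by positivity
  have hη : 0 < ε / (1 + 1 / δ) := by positivity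
  have hXc : (0 : ℝ) < X.card := by exact_mod_cast Finset.card_pos.2 hX
  have hYc : (0 : ℝ) < Y.card := by exact_mod_cast Finset.card_pos.2 hY
  set L : ℝ := Real.log ((X.card : ℝ) * Y.card) with hL
  have hPhi : Phi X 1 + Phi Y 1 = L := by
    rw [Phi_one X hX, Phi_one Y hY, hL, Real.log_mul hXc.ne' hYc.ne']
  have hPhi2 : Phi X 1 + Phi Y 1 ≤ 1 / δ * (S.card : ℝ) := by
    rw [hPhi, div_mul_eq_mul_div, one_mul, le_div_iff₀ hδ]
    linarith
  obtain ⟨H, hHS, r, hr0, hDom, hsum⟩ := chain2 hη.le hN (1 / δ) hB0 q X Y hX hY S hS hinj hq0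
    1 1 one_pos one_pos
    (fun p hp => ⟨fun h => (hS p hp).one_lt.ne' (Nat.dvd_one.1 h),
      fun h => (hS p hp).one_lt.ne' (Nat.dvd_one.1 h)⟩) hPhi2
  rw [hPhi] at hsum
  have hsum2 : ∑ x ∈ X, ∑ y ∈ Y, r x y ≤ K * (ε * (X.card * Y.card * L)) := by
    have h1 : ε / (1 + 1 / δ) * (1 + 1 / δ) = ε := by
      field_simp
    rwa [h1] at hsum
  -- the costs of the multipliers
  have hex : ∀ d : ℕ, ∃ c : Fin K → ℤ → ℤ → ℝ, d ∈ E → (∀ i x y, 0 ≤ c i x y) ∧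
      (∀ i, Adm X Y 1 1 (q i * (d : ℤ) * ∏ p ∈ H, (p : ℤ)) (c i)) ∧
      ∀ x ∈ X, ∀ y ∈ Y, ∑ i, c i x y ≤ r x y := by
    intro d
    by_cases hd : d ∈ E
    · obtain ⟨c, hc0, hcA, hcr⟩ := hDom (fun i => q i * (d : ℤ) * ∏ p ∈ H, (p : ℤ))
        ⟨(d : ℤ), fun p hp h => hE d hd p hp (Int.natCast_dvd_natCast.1 h), fun i => rfl⟩
      exact ⟨c, fun _ => ⟨hc0, hcA, hcr⟩⟩
    · exact ⟨fun _ _ _ => 0, fun h => absurd h hd⟩
  choose c hc using hex
  -- the choice of `i`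
  have hi : ∃ i : Fin K, ∑ x ∈ X, ∑ y ∈ Y, c (e H y) i x y ≤ ε * (X.card * Y.card * L) := by
    have h1 : ∑ i : Fin K, ∑ x ∈ X, ∑ y ∈ Y, c (e H y) i x y ≤
        ∑ _i : Fin K, ε * (X.card * Y.card * L) := by
      rw [Finset.sum_const, Finset.card_univ, Fintype.card_fin, nsmul_eq_mul]
      refine le_trans ?_ hsum2
      rw [Finset.sum_comm]
      refine Finset.sum_le_sum fun x hx => ?_
      rw [Finset.sum_comm]
      refine Finset.sum_le_sum fun y hy => ?_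
      exact (hc (e H y) (heE H hHS y hy)).2.2 x hx y hy
    haveI : Nonempty (Fin K) := ⟨⟨0, hK⟩⟩
    obtain ⟨i, _, hi⟩ := Finset.exists_le_of_sum_le Finset.univ_nonempty h1
    exact ⟨i, hi⟩
  obtain ⟨i, hi⟩ := hi
  -- counting
  set W : Finset ℤ := Finset.image₂ (fun x a => x + a) X A with hW
  have hcount : ∑ x ∈ X, ∑ y ∈ Y, Real.exp (-(c (e H y) i x y)) ≤ (E.card : ℝ) * (W.card : ℝ) := by
    have h1 : ∀ x ∈ X, ∀ y ∈ Y, Real.exp (-(c (e H y) i x y)) ≤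
        ∑ d ∈ E, ∑ w ∈ W, (if x + (q i * (d : ℤ) * ∏ p ∈ H, (p : ℤ)) * y = w then
          Real.exp (-(c d i x y)) else 0) := by
      intro x hx y hy
      have hmem : x + (q i * ((e H y : ℕ) : ℤ) * ∏ p ∈ H, (p : ℤ)) * y ∈ W := by
        have h2 := hA i H hHS y hy
        have h3 : (q i * ((e H y : ℕ) : ℤ) * ∏ p ∈ H, (p : ℤ)) * y =
            q i * (∏ p ∈ H, (p : ℤ)) * (e H y : ℤ) * y := by ring
        rw [h3]
        exact Finset.mem_image₂_of_mem hx h2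
      have hnn : ∀ d : ℕ, ∀ w : ℤ, 0 ≤ (if x + (q i * (d : ℤ) * ∏ p ∈ H, (p : ℤ)) * y = w then
          Real.exp (-(c d i x y)) else 0) := by
        intro d w
        split_ifs
        · exact (Real.exp_pos _).le
        · exact le_rfl
      have h4 : Real.exp (-(c (e H y) i x y)) ≤ ∑ w ∈ W,
          (if x + (q i * ((e H y : ℕ) : ℤ) * ∏ p ∈ H, (p : ℤ)) * y = w then
            Real.exp (-(c (e H y) i x y)) else 0) := by
        rw [Finset.sum_ite_eq, if_pos hmem]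
      refine h4.trans ?_
      exact Finset.single_le_sum (f := fun d : ℕ => ∑ w ∈ W,
          (if x + (q i * (d : ℤ) * ∏ p ∈ H, (p : ℤ)) * y = w then
            Real.exp (-(c d i x y)) else 0))
        (fun d _ => Finset.sum_nonneg fun w _ => hnn d w) (heE H hHS y hy)
    have h2 : ∑ x ∈ X, ∑ y ∈ Y, Real.exp (-(c (e H y) i x y)) ≤
        ∑ d ∈ E, ∑ w ∈ W, ∑ x ∈ X, ∑ y ∈ Y,
          (if x + (q i * (d : ℤ) * ∏ p ∈ H, (p : ℤ)) * y = w then
            Real.exp (-(c d i x y)) else 0) := by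
      calc ∑ x ∈ X, ∑ y ∈ Y, Real.exp (-(c (e H y) i x y))
          ≤ ∑ x ∈ X, ∑ y ∈ Y, ∑ d ∈ E, ∑ w ∈ W,
            (if x + (q i * (d : ℤ) * ∏ p ∈ H, (p : ℤ)) * y = w then
              Real.exp (-(c d i x y)) else 0) :=
            Finset.sum_le_sum fun x hx => Finset.sum_le_sum fun y hy => h1 x hx y hy
        _ = ∑ d ∈ E, ∑ w ∈ W, ∑ x ∈ X, ∑ y ∈ Y,
            (if x + (q i * (d : ℤ) * ∏ p ∈ H, (p : ℤ)) * y = w then
              Real.exp (-(c d i x y)) else 0) := by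
            rw [← Finset.sum_product' X Y, ← Finset.sum_product' E W]
            rw [Finset.sum_congr rfl fun z _ => (Finset.sum_product' E W (fun d w =>
              (if z.1 + (q i * (d : ℤ) * ∏ p ∈ H, (p : ℤ)) * z.2 = w then
                Real.exp (-(c d i z.1 z.2)) else 0))).symm]
            rw [Finset.sum_comm]
            refine Finset.sum_congr rfl fun z _ => ?_
            rw [← Finset.sum_product' X Y (fun x y =>
              (if x + (q i * (z.1 : ℤ) * ∏ p ∈ H, (p : ℤ)) * y = z.2 then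
                Real.exp (-(c z.1 i x y)) else 0))]
    refine h2.trans ?_
    have h3 : ∀ d ∈ E, ∀ w ∈ W, ∑ x ∈ X, ∑ y ∈ Y,
          (if x + (q i * (d : ℤ) * ∏ p ∈ H, (p : ℤ)) * y = w then
            Real.exp (-(c d i x y)) else 0) ≤ 1 := by
      intro d hd w _
      have h4 := (hc d hd).2.1 i 0 0 w
      refine le_trans (le_of_eq ?_) h4
      refine Finset.sum_congr rfl fun x _ => Finset.sum_congr rfl fun y _ => ?_
      simp
    calc _ ≤ ∑ _d ∈ E, ∑ _w ∈ W, (1 : ℝ) :=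
          Finset.sum_le_sum fun d hd => Finset.sum_le_sum fun w hw => h3 d hd w hw
      _ = (E.card : ℝ) * (W.card : ℝ) := by simp
  have hJ := jensen_aux X Y (fun x y => c (e H y) i x y) (ε * L) (by
    refine hi.trans (le_of_eq ?_)
    ring)
  refine le_trans (le_of_eq ?_) (hJ.trans hcount)
  have hpos : (0 : ℝ) < (X.card : ℝ) * Y.card := mul_pos hXc hYc
  rw [Real.rpow_def_of_pos hpos, ← hL]
  have h9 : L * (1 - ε) = L + -(ε * L) := by ring
  rw [h9, Real.exp_add, hL, Real.exp_log hpos]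

end Pool.Agent.Helper15.SA
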