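import Pool.Agent.Helper80.DR.Defs

set_option autoImplicit false

/-!
# SA-0 Defs: the cube structure found in sets on which many primes act
-/

namespace Pool.Agent.Helper15.SA

open Finset Pool.Agent.Helper80.DR

/-- The structure which is found in sets on which many primes act: `K` multipliers `q ∈ J`, all of
them smaller than the primes of `P`, and for each `y ∈ Y` and each `H ⊆ S` an element
`q * ∏ D * y` of `A` with `D ⊆ P`, `D ∩ S = H`, the same `D` for all `q ∈ J`. -/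
def Cube (A : Finset ℤ) (T : Finset ℕ) (K : ℕ) (ε s : ℝ) : Prop :=
  ∃ (J P S : Finset ℕ) (Y : Finset ℤ), J ⊆ T ∧ J.card = K ∧ P ⊆ T ∧ S ⊆ P ∧
    (∀ q ∈ J, ∀ p ∈ P, q < p) ∧ s ≤ (S.card : ℝ) ∧ Y.Nonempty ∧
    (A.card : ℝ) ^ (1 - ε) ≤ (Y.card : ℝ) ∧ Y.card ≤ A.card ∧
    ∀ y ∈ Y, ∀ H ⊆ S, ∃ D ⊆ P, D ∩ S = H ∧
      ∀ q ∈ J, (q : ℤ) * (∏ p ∈ D, (p : ℤ)) * y ∈ A

/-- the set of the elements `M * x`, `x ∈ B` -/
def dilate (M : ℤ) (B : Finset ℤ) : Finset ℤ := B.image (fun x => M * x)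

/-- `x ↦ x * ∏ p ∈ T, v_p ^ (ord_p x) * u_p ^ (R - ord_p x)` -/
def twist (T : Finset ℕ) (u v : ℕ → ℕ) (R : ℕ) (x : ℤ) : ℤ :=
  x * ∏ p ∈ T, ((v p : ℤ) ^ padicValInt p x * (u p : ℤ) ^ (R - padicValInt p x))

end Pool.Agent.Helper15.SA
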