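import Pool.Agent.Helper79.EM.GrowthX
import Pool.Agent.Helper15.SA.Core
import Pool.Agent.Helper15.SA.Defs

set_option autoImplicit false

/-!
# SA-3 GrowthS: `growthX` of `Helper79/EM/GrowthX.lean` with an explicit number of multipliers
-/

namespace Pool.Agent.Helper15.SA

open Finset Pool.Agent.Helper80.DR Pool.Agent.Helper79.EM

/-- [SA-3] -/
theorem growthS (k : ℕ) (b ε : ℝ) (hb : 0 ≤ b) (hε : 0 < ε) : ∃ ε1 : ℝ, 0 < ε1 ∧ ε1 ≤ 1 ∧
    ∀ (δ : ℝ) (K : ℕ), 0 < δ → 0 < K → NodeProp2 (ε1 / (1 + 1 / (δ / ((k : ℝ) + b + 1)))) K →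
      ∀ A X : Finset ℤ, A.Nonempty → X.Nonempty →
      (X.card : ℝ) ≤ (A.card : ℝ) ^ b → Struct A K ε1 δ →
      (X.card : ℝ) * (A.card : ℝ) ^ ((k : ℝ) - ε) ≤ numX X A k := by
  set ε2 : ℝ := ε / ((k : ℝ) + 1) with hε2
  have hk1 : (0 : ℝ) < (k : ℝ) + 1 := by positivity
  have hkb1 : (0 : ℝ) < (k : ℝ) + b + 1 := by positivity
  have hk3 : (0 : ℝ) < (k : ℝ) + b + 3 := by positivity
  have hε2pos : 0 < ε2 := by positivity
  have hkε2 : (k : ℝ) * ε2 ≤ ε := by
    rw [hε2, mul_div_assoc', div_le_iff₀ hk1]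
    nlinarith
  set ε1 : ℝ := min (ε2 / ((k : ℝ) + b + 3)) 1 with hε1
  have hε1pos : 0 < ε1 := lt_min (by positivity) one_pos
  have hε1le : ε1 ≤ 1 := min_le_right _ _
  have hε1ε2 : ε1 * ((k : ℝ) + b + 3) ≤ ε2 := by
    have h1 : ε1 ≤ ε2 / ((k : ℝ) + b + 3) := min_le_left _ _
    rwa [le_div_iff₀ hk3] at h1
  refine ⟨ε1, hε1pos, hε1le, fun δ K hδ hK hN A X hA hX hXb hS => ?_⟩
  obtain ⟨q, Y, S, E, e, hYne, hYlow, hYA, hEcard, hSp, hSδ, hinj, hq0, heE, hEp, hmem⟩ := hS
  have hN1 : (1 : ℝ) ≤ A.card := by exact_mod_cast hA.card_pos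
  have hN0 : (0 : ℝ) < A.card := by linarith
  have hX1 : (1 : ℝ) ≤ X.card := by exact_mod_cast hX.card_pos
  have hlogN : 0 ≤ Real.log A.card := Real.log_nonneg hN1
  have hY1 : (1 : ℝ) ≤ Y.card := by exact_mod_cast hYne.card_pos
  have hYN : (Y.card : ℝ) ≤ A.card := by exact_mod_cast hYA
  have key : ∀ j : ℕ, j ≤ k → (X.card : ℝ) * (A.card : ℝ) ^ ((j : ℝ) - j * ε2) ≤
      numX X A j := by
    intro j
    induction j with
    | zero =>
      intro _
      have h0 : (A.card : ℝ) ^ (((0 : ℕ) : ℝ) - ((0 : ℕ) : ℝ) * ε2) = 1 := by simp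
      rw [h0, mul_one]
      exact card_le_numX X A 0 hA
    | succ j ih =>
      intro hj
      have ih' := ih (by omega)
      obtain ⟨Z, hZ⟩ : ∃ Z : Finset ℤ, Z = (X ×ˢ Fintype.piFinset (fun _ : Fin j => A)).image
        (fun f : ℤ × (Fin j → ℤ) => f.1 + ∑ i, f.2 i) := ⟨_, rfl⟩
      have hZn : numX X A j = (Z.card : ℝ) := by
        rw [hZ]
        rfl
      rw [hZn] at ih'
      have hZ0 : (1 : ℝ) ≤ Z.card := by
        rw [← hZn]
        exact hX1.trans (card_le_numX X A j hA)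
      have hZne : Z.Nonempty := by
        rw [← Finset.card_pos]
        have : (0 : ℝ) < Z.card := by linarith
        exact_mod_cast this
      have hZle : (Z.card : ℝ) ≤ (A.card : ℝ) ^ (b + j) := by
        have h3 : Z.card ≤ X.card * A.card ^ j := by
          rw [hZ]
          refine Finset.card_image_le.trans ?_
          rw [Finset.card_product, Fintype.card_piFinset]
          simp
        have h4 : (Z.card : ℝ) ≤ X.card * (A.card : ℝ) ^ j := by exact_mod_cast h3
        rw [Real.rpow_add hN0, Real.rpow_natCast]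
        exact h4.trans (mul_le_mul_of_nonneg_right hXb (by positivity))
      have hjk : (j : ℝ) + 1 ≤ (k : ℝ) := by exact_mod_cast hj
      have hj0 : (0 : ℝ) ≤ (j : ℝ) := by positivity
      have hlogZ : Real.log Z.card ≤ (b + j) * Real.log A.card := by
        have h3 := Real.log_le_log (by linarith) hZle
        rwa [Real.log_rpow hN0] at h3
      have hlogY : Real.log Y.card ≤ Real.log A.card := Real.log_le_log (by linarith) hYN
      have hZY : (Z.card : ℝ) * Y.card ≤ (A.card : ℝ) ^ (b + j + 1) := by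
        rw [Real.rpow_add hN0 (b + j) 1, Real.rpow_one]
        exact mul_le_mul hZle hYN (by linarith) (Real.rpow_nonneg hN0.le _)
      have hZY0 : (0 : ℝ) < (Z.card : ℝ) * Y.card := by positivity
      have hlog : δ / ((k : ℝ) + b + 1) * Real.log ((Z.card : ℝ) * Y.card) ≤ (S.card : ℝ) := by
        refine le_trans ?_ hSδ
        rw [Real.log_mul (by linarith) (by linarith), div_mul_eq_mul_div, div_le_iff₀ hkb1]
        have h3 : Real.log Z.card + Real.log Y.card ≤ Real.log A.card * ((k : ℝ) + b + 1) := by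
          nlinarith
        calc δ * (Real.log Z.card + Real.log Y.card) ≤ δ * (Real.log A.card * ((k : ℝ) + b + 1)) :=
              mul_le_mul_of_nonneg_left h3 hδ.le
          _ = δ * Real.log A.card * ((k : ℝ) + b + 1) := by ring
      have hc := core_of_node ε1 (δ / ((k : ℝ) + b + 1)) hε1pos (by positivity) K hK hN
        q Z Y A S E e hZne hYne hSp hlog hinj hq0 heE hEp hmem
      -- the sumset
      have hsub : Finset.image₂ (fun x a => x + a) Z A ⊆
          (X ×ˢ Fintype.piFinset (fun _ : Fin (j + 1) => A)).image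
            (fun f : ℤ × (Fin (j + 1) → ℤ) => f.1 + ∑ i, f.2 i) := by
        intro w hw
        rw [Finset.mem_image₂] at hw
        obtain ⟨z, hz, a, ha, rfl⟩ := hw
        rw [hZ, Finset.mem_image] at hz
        obtain ⟨⟨x, f⟩, hf, rfl⟩ := hz
        rw [Finset.mem_product, Fintype.mem_piFinset] at hf
        rw [Finset.mem_image]
        refine ⟨(x, Fin.snoc (α := fun _ => ℤ) f a), ?_, ?_⟩
        · rw [Finset.mem_product, Fintype.mem_piFinset]
          refine ⟨hf.1, ?_⟩
          intro i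
          refine Fin.lastCases ?_ (fun i => ?_) i
          · simp only [Fin.snoc_last]
            exact ha
          · simp only [Fin.snoc_castSucc]
            exact hf.2 i
        · simp only [Fin.sum_univ_castSucc, Fin.snoc_castSucc, Fin.snoc_last]
          ring
      have hcard : ((Finset.image₂ (fun x a => x + a) Z A).card : ℝ) ≤ numX X A (j + 1) := by
        unfold numX
        exact_mod_cast Finset.card_le_card hsub
      obtain ⟨W, hW⟩ : ∃ W : ℝ, W = numX X A (j + 1) := ⟨_, rfl⟩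
      have hW0 : 0 ≤ W := by
        rw [hW]
        exact numX_nonneg _ _ _
      rw [← hW] at hcard
      rw [← hW]
      have hEW : ((Z.card : ℝ) * Y.card) ^ (1 - ε1) ≤ (A.card : ℝ) ^ ε1 * W := by
        refine hc.trans ?_
        exact mul_le_mul hEcard hcard (by positivity) (Real.rpow_nonneg hN0.le _)
      -- `(|Z||Y|)^(1-ε1) = |Z||Y| (|Z||Y|)^(-ε1)`
      have h5 : ((Z.card : ℝ) * Y.card) * (A.card : ℝ) ^ (-(ε1 * (b + j + 1))) ≤
          ((Z.card : ℝ) * Y.card) ^ (1 - ε1) := by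
        rw [sub_eq_add_neg, Real.rpow_add hZY0, Real.rpow_one]
        refine mul_le_mul_of_nonneg_left ?_ hZY0.le
        rw [Real.rpow_neg hN0.le, Real.rpow_neg hZY0.le]
        refine inv_anti₀ (Real.rpow_pos_of_pos hZY0 _) ?_
        rw [mul_comm ε1 (b + j + 1), Real.rpow_mul hN0.le]
        exact Real.rpow_le_rpow hZY0.le hZY hε1pos.le
      have h6 : ((X.card : ℝ) * (A.card : ℝ) ^ ((j : ℝ) - j * ε2)) * (A.card : ℝ) ^ (1 - ε1) *
          (A.card : ℝ) ^ (-(ε1 * (b + j + 1))) ≤ (A.card : ℝ) ^ ε1 * W := by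
        refine le_trans ?_ (h5.trans hEW)
        refine mul_le_mul_of_nonneg_right ?_ (Real.rpow_nonneg hN0.le _)
        exact mul_le_mul ih' hYlow (Real.rpow_nonneg hN0.le _) (by linarith)
      have h7 : (A.card : ℝ) ^ ε1 * ((X.card : ℝ) *
          (A.card : ℝ) ^ (((j + 1 : ℕ) : ℝ) - ((j + 1 : ℕ) : ℝ) * ε2)) ≤ (A.card : ℝ) ^ ε1 * W := by
        refine le_trans ?_ h6
        have h8 : (A.card : ℝ) ^ ε1 * ((X.card : ℝ) *
            (A.card : ℝ) ^ (((j + 1 : ℕ) : ℝ) - ((j + 1 : ℕ) : ℝ) * ε2)) =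
            (X.card : ℝ) * (A.card : ℝ) ^ (ε1 + (((j + 1 : ℕ) : ℝ) - ((j + 1 : ℕ) : ℝ) * ε2)) := by
          rw [Real.rpow_add hN0]
          ring
        have h9 : ((X.card : ℝ) * (A.card : ℝ) ^ ((j : ℝ) - j * ε2)) * (A.card : ℝ) ^ (1 - ε1) *
            (A.card : ℝ) ^ (-(ε1 * (b + j + 1))) =
            (X.card : ℝ) * (A.card : ℝ) ^ ((j : ℝ) - j * ε2 + (1 - ε1) + -(ε1 * (b + j + 1))) := by
          rw [Real.rpow_add hN0, Real.rpow_add hN0]
          ring
        rw [h8, h9]
        refine mul_le_mul_of_nonneg_left ?_ (by linarith)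
        apply Real.rpow_le_rpow_of_exponent_le hN1
        push_cast
        have h2 : ε1 * ((j : ℝ) + b + 3) ≤ ε2 := by nlinarith
        nlinarith
      exact le_of_mul_le_mul_left h7 (Real.rpow_pos_of_pos hN0 _)
  refine le_trans ?_ (key k le_rfl)
  refine mul_le_mul_of_nonneg_left ?_ (by linarith)
  apply Real.rpow_le_rpow_of_exponent_le hN1
  linarith

end Pool.Agent.Helper15.SA
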