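import Mathlib

set_option autoImplicit false

/-!
# SA-4 Num: the choice of the number `K` of multipliers

`L = exp l` is `log |B|`, `n` the number of acting primes, about `C L / l`.
-/

namespace Pool.Agent.Helper15.SA

theorem lin_le_exp (C b : ℝ) (hb : 0 < b) :
    ∃ T0 : ℝ, 1 ≤ T0 ∧ ∀ x : ℝ, T0 ≤ x → C * x ≤ Real.exp (b * x) := by
  refine ⟨max 1 (2 * |C| / b ^ 2), le_max_left _ _, fun x hx => ?_⟩
  have hx1 : 1 ≤ x := (le_max_left _ _).trans hx
  have hx0 : 0 ≤ x := by linarith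
  have hx2 : 2 * |C| / b ^ 2 ≤ x := (le_max_right _ _).trans hx
  have h1 : 2 * |C| ≤ x * b ^ 2 := by
    rwa [div_le_iff₀ (by positivity)] at hx2
  have h2 := Real.quadratic_le_exp_of_nonneg (show 0 ≤ b * x by positivity)
  have h3 : C * x ≤ |C| * x := mul_le_mul_of_nonneg_right (le_abs_self C) hx0
  have h4 : |C| * x ≤ x * b ^ 2 / 2 * x := mul_le_mul_of_nonneg_right (by linarith) hx0
  have h5 : (b * x) ^ 2 / 2 = x * b ^ 2 / 2 * x := by ring
  have h6 : 0 ≤ b * x := by positivity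
  linarith

theorem const_le_exp (C b : ℝ) (hb : 0 < b) :
    ∃ T0 : ℝ, 1 ≤ T0 ∧ ∀ x : ℝ, T0 ≤ x → C ≤ Real.exp (b * x) := by
  obtain ⟨T0, h1, h2⟩ := lin_le_exp |C| b hb
  refine ⟨T0, h1, fun x hx => ?_⟩
  have h3 := h2 x hx
  have h4 : |C| * 1 ≤ |C| * x := mul_le_mul_of_nonneg_left (by linarith) (abs_nonneg C)
  have h5 := le_abs_self C
  linarith

/-- [SA-4] -/
theorem num (κ κ6 ε1 kb H : ℝ) (hκ : 0 < κ) (hκ1 : κ ≤ 1) (hκ6 : 0 < κ6) (hε1 : 0 < ε1)
    (hkb : 0 < kb) (C1 : ℝ) (hC1 : 128 * kb / (ε1 * κ6) ≤ C1) :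
    ∃ l0 : ℝ, 1 ≤ l0 ∧ ∀ l : ℝ, l0 ≤ l → ∀ n : ℕ, C1 * (Real.exp l / l) ≤ n →
      (n : ℝ) ≤ C1 * (Real.exp l / l) + 1 →
      ∃ K : ℕ, 1 ≤ K ∧
        4 / ((Real.exp (-(4 / (ε1 / (1 + 1 / (κ6 * n / 2 / Real.exp l / kb)))))) ^ 2 *
          (ε1 / (1 + 1 / (κ6 * n / 2 / Real.exp l / kb)))) ≤ K ∧
        32 / κ * (n : ℝ) ^ K ≤ Real.exp (3 / 4 * (κ / 8 * Real.log 2) * n) ∧
        8 / κ * (n : ℝ) ^ K ≤ Real.exp (n : ℝ) ∧
        8 * ((K : ℝ) + 2) ≤ κ * n ∧ 5 * (n : ℝ) ≤ ε1 * Real.exp l ∧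
        H * (K : ℝ) ^ 2 ≤ κ6 * n / 2 := by
  have hC1pos : 0 < C1 := lt_of_lt_of_le (by positivity) hC1
  have hl2a : 0.69 < Real.log 2 := by have := Real.log_two_gt_d9; linarith
  have hl2b : Real.log 2 < 0.7 := by have := Real.log_two_lt_d9; linarith
  obtain ⟨c, hc⟩ : ∃ c : ℝ, c = 3 / 4 * (κ / 8 * Real.log 2) := ⟨_, rfl⟩
  have hc0 : 0 < c := by rw [hc]; positivity
  have hc1 : c ≤ 1 := by rw [hc]; nlinarith
  -- thresholds
  obtain ⟨t2, ht2, f2⟩ := const_le_exp (2 * C1) 1 one_pos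
  obtain ⟨t3, ht3, f3⟩ := lin_le_exp (1 / C1) (1 / 4) (by norm_num)
  obtain ⟨t4, ht4, f4⟩ := const_le_exp (Real.exp (16 / ε1) / 2 + 1) (1 / 12) (by norm_num)
  obtain ⟨t5, ht5, f5⟩ := lin_le_exp ((|Real.log (32 / κ)| + 2) / c) (5 / 12) (by norm_num)
  obtain ⟨t6, ht6, f6⟩ := const_le_exp (24 / κ) (5 / 12) (by norm_num)
  obtain ⟨t8, ht8, f8⟩ := const_le_exp (2 * |H| / κ6) (1 / 12) (by norm_num)
  obtain ⟨t9, ht9, f9⟩ := lin_le_exp (1 / C1) 1 one_pos
  obtain ⟨t10, ht10, f10⟩ := const_le_exp (10 / ε1) 1 one_pos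
  obtain ⟨l0, hl0⟩ : ∃ l0 : ℝ, l0 = max (max (max t2 t3) (max t4 t5)) (max (max t6 t8)
    (max (max t9 t10) (10 * C1 / ε1))) := ⟨_, rfl⟩
  refine ⟨l0, ?_, ?_⟩
  · rw [hl0]
    exact ht2.trans ((le_max_left _ _).trans ((le_max_left _ _).trans (le_max_left _ _)))
  intro l hl n hn1 hn2
  rw [hl0] at hl
  simp only [max_le_iff] at hl
  obtain ⟨⟨⟨h2, h3⟩, ⟨h4, h5⟩⟩, ⟨h6, h8⟩, ⟨h9, h10⟩, h11⟩ := hl
  have hl1 : 1 ≤ l := ht2.trans h2
  have hlpos : 0 < l := by linarith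
  obtain ⟨E, hE⟩ : ∃ E : ℝ, E = Real.exp l := ⟨_, rfl⟩
  have hE0 : 0 < E := by rw [hE]; exact Real.exp_pos _
  obtain ⟨t, ht⟩ : ∃ t : ℝ, t = (n : ℝ) := ⟨_, rfl⟩
  rw [← hE, ← ht] at hn1 hn2
  -- size of t
  have g9 : 1 ≤ C1 * (E / l) := by
    have := f9 l h9
    rw [one_mul, ← hE] at this
    have h12 : 1 / C1 * l * C1 ≤ E * C1 := mul_le_mul_of_nonneg_right this hC1pos.le
    have h13 : 1 / C1 * l * C1 = l := by field_simp
    rw [← mul_div_assoc, le_div_iff₀ hlpos]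
    linarith
  have ht0 : 1 ≤ t := g9.trans hn1
  have htup : t ≤ Real.exp (2 * l) := by
    have h12 : t ≤ 2 * C1 * (E / l) := by linarith
    have h13 : E / l ≤ E := div_le_self hE0.le hl1
    have h14 := f2 l h2
    rw [one_mul, ← hE] at h14
    calc t ≤ 2 * C1 * (E / l) := h12
      _ ≤ 2 * C1 * E := mul_le_mul_of_nonneg_left h13 (by positivity)
      _ ≤ E * E := mul_le_mul_of_nonneg_right h14 hE0.le
      _ = Real.exp (2 * l) := by rw [hE, ← Real.exp_add]; congr 1; ring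
  have htlow : Real.exp (3 / 4 * l) ≤ t := by
    refine le_trans ?_ hn1
    have h12 := f3 l h3
    have h13 : l ≤ C1 * Real.exp (1 / 4 * l) := by
      have := mul_le_mul_of_nonneg_left h12 hC1pos.le
      have h14 : C1 * (1 / C1 * l) = l := by field_simp
      linarith
    rw [← mul_div_assoc, le_div_iff₀ hlpos]
    calc Real.exp (3 / 4 * l) * l ≤ Real.exp (3 / 4 * l) * (C1 * Real.exp (1 / 4 * l)) :=
          mul_le_mul_of_nonneg_left h13 (Real.exp_pos _).le
      _ = C1 * (Real.exp (3 / 4 * l) * Real.exp (1 / 4 * l)) := by ring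
      _ = C1 * E := by rw [← Real.exp_add, hE]; congr 2; ring
  -- eta
  obtain ⟨η, hη⟩ : ∃ η : ℝ, η = ε1 / (1 + 1 / (κ6 * t / 2 / E / kb)) := ⟨_, rfl⟩
  have htpos : 0 < t := by linarith
  have hη0 : 0 < η := by rw [hη]; positivity
  have hηb : 16 / η ≤ 16 / ε1 + l / 4 := by
    have e1 : 16 / η = 16 / ε1 + 32 * kb * E / (ε1 * κ6 * t) := by
      rw [hη]
      field_simp
      ring
    rw [e1]
    have h12 : 32 * kb * E / (ε1 * κ6 * t) ≤ l / 4 := by
      rw [div_le_iff₀ (by positivity)]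
      have h13 : C1 * E ≤ t * l := by
        rw [← mul_div_assoc, div_le_iff₀ hlpos] at hn1
        exact hn1
      have h14 : 128 * kb ≤ C1 * (ε1 * κ6) := by
        rw [div_le_iff₀ (by positivity)] at hC1
        exact hC1
      have h15 : 128 * kb * E ≤ C1 * (ε1 * κ6) * E := mul_le_mul_of_nonneg_right h14 hE0.le
      have h16 : (ε1 * κ6) * (C1 * E) ≤ (ε1 * κ6) * (t * l) :=
        mul_le_mul_of_nonneg_left h13 (by positivity)
      nlinarith
    linarith
  -- K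
  obtain ⟨K, hK⟩ : ∃ K : ℕ, K = ⌈4 / ((Real.exp (-(4 / η))) ^ 2 * η)⌉₊ := ⟨_, rfl⟩
  have hK1 : 4 / ((Real.exp (-(4 / η))) ^ 2 * η) ≤ K := by rw [hK]; exact Nat.le_ceil _
  have hKpos : (0 : ℝ) < K := lt_of_lt_of_le (by positivity) hK1
  have hKone : 1 ≤ K := by exact_mod_cast hKpos
  have hKup : (K : ℝ) ≤ Real.exp (1 / 3 * l) := by
    have h12 : 4 / ((Real.exp (-(4 / η))) ^ 2 * η) ≤ Real.exp (16 / η) / 2 := by
      have h13 : 4 / ((Real.exp (-(4 / η))) ^ 2 * η) = (8 / η) * Real.exp (8 / η) / 2 := by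
        have h20 : (Real.exp (-(4 / η))) ^ 2 = (Real.exp (8 / η))⁻¹ := by
          rw [← Real.exp_nat_mul, ← Real.exp_neg]
          congr 1
          push_cast
          ring
        rw [h20]
        have h21 := Real.exp_pos (8 / η)
        field_simp
        norm_num
      rw [h13]
      have h14 : 8 / η ≤ Real.exp (8 / η) := by
        have := Real.add_one_le_exp (8 / η)
        linarith
      have h15 : Real.exp (16 / η) = Real.exp (8 / η) * Real.exp (8 / η) := by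
        rw [← Real.exp_add]
        congr 1
        ring
      rw [h15]
      have := mul_le_mul_of_nonneg_right h14 (Real.exp_pos (8 / η)).le
      linarith
    have h16 : (K : ℝ) ≤ Real.exp (16 / η) / 2 + 1 := by
      rw [hK]
      have := (Nat.ceil_lt_add_one (show 0 ≤ 4 / ((Real.exp (-(4 / η))) ^ 2 * η) by
        positivity)).le
      linarith
    have h17 : Real.exp (16 / η) ≤ Real.exp (16 / ε1) * Real.exp (1 / 4 * l) := by
      rw [← Real.exp_add]
      apply Real.exp_le_exp.2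
      linarith
    have h18 : (1 : ℝ) ≤ Real.exp (1 / 4 * l) := Real.one_le_exp (by positivity)
    have h19 := f4 l h4
    calc (K : ℝ) ≤ Real.exp (16 / ε1) * Real.exp (1 / 4 * l) / 2 + Real.exp (1 / 4 * l) := by
          linarith
      _ = (Real.exp (16 / ε1) / 2 + 1) * Real.exp (1 / 4 * l) := by ring
      _ ≤ Real.exp (1 / 12 * l) * Real.exp (1 / 4 * l) :=
          mul_le_mul_of_nonneg_right h19 (Real.exp_pos _).le
      _ = Real.exp (1 / 3 * l) := by rw [← Real.exp_add]; congr 1; ring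
  -- the main estimate
  have hpow : t ^ K ≤ Real.exp (2 * l * Real.exp (1 / 3 * l)) := by
    calc t ^ K ≤ (Real.exp (2 * l)) ^ K := pow_le_pow_left₀ htpos.le htup K
      _ = Real.exp (K * (2 * l)) := by rw [← Real.exp_nat_mul]
      _ ≤ Real.exp (2 * l * Real.exp (1 / 3 * l)) := by
          apply Real.exp_le_exp.2
          rw [mul_comm]
          exact mul_le_mul_of_nonneg_left hKup (by positivity)
  have hmain : Real.log (32 / κ) + 2 * l * Real.exp (1 / 3 * l) ≤ c * t := by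
    have h12 := f5 l h5
    have h13 : (|Real.log (32 / κ)| + 2) * l ≤ c * Real.exp (5 / 12 * l) := by
      have := mul_le_mul_of_nonneg_left h12 hc0.le
      have h14 : c * ((|Real.log (32 / κ)| + 2) / c * l) = (|Real.log (32 / κ)| + 2) * l := by
        field_simp
      linarith
    have h15 : (1 : ℝ) ≤ Real.exp (1 / 3 * l) := Real.one_le_exp (by positivity)
    have h16 : Real.log (32 / κ) ≤ |Real.log (32 / κ)| * l * Real.exp (1 / 3 * l) := by
      have h17 := le_abs_self (Real.log (32 / κ))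
      have h18 : |Real.log (32 / κ)| * 1 ≤ |Real.log (32 / κ)| * l :=
        mul_le_mul_of_nonneg_left hl1 (abs_nonneg _)
      have h19 : |Real.log (32 / κ)| * l * 1 ≤ |Real.log (32 / κ)| * l * Real.exp (1 / 3 * l) :=
        mul_le_mul_of_nonneg_left h15 (by positivity)
      linarith
    calc Real.log (32 / κ) + 2 * l * Real.exp (1 / 3 * l)
        ≤ |Real.log (32 / κ)| * l * Real.exp (1 / 3 * l) + 2 * l * Real.exp (1 / 3 * l) := by
          linarith
      _ = (|Real.log (32 / κ)| + 2) * l * Real.exp (1 / 3 * l) := by ring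
      _ ≤ c * Real.exp (5 / 12 * l) * Real.exp (1 / 3 * l) :=
          mul_le_mul_of_nonneg_right h13 (Real.exp_pos _).le
      _ = c * Real.exp (3 / 4 * l) := by rw [mul_assoc, ← Real.exp_add]; congr 2; ring
      _ ≤ c * t := mul_le_mul_of_nonneg_left htlow hc0.le
  have hlog32 : 32 / κ = Real.exp (Real.log (32 / κ)) := (Real.exp_log (by positivity)).symm
  have hexp32 : 32 / κ * t ^ K ≤ Real.exp (c * t) := by
    calc 32 / κ * t ^ K ≤ 32 / κ * Real.exp (2 * l * Real.exp (1 / 3 * l)) :=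
          mul_le_mul_of_nonneg_left hpow (by positivity)
      _ = Real.exp (Real.log (32 / κ) + 2 * l * Real.exp (1 / 3 * l)) := by
          rw [Real.exp_add, Real.exp_log (by positivity)]
      _ ≤ Real.exp (c * t) := Real.exp_le_exp.2 hmain
  refine ⟨K, hKone, ?_, ?_, ?_, ?_, ?_, ?_⟩
  · rw [← hE, ← ht, ← hη]
    exact hK1
  · rw [← ht, ← hc]
    exact hexp32
  · rw [← ht]
    have h12 : 8 / κ * t ^ K ≤ 32 / κ * t ^ K := by
      apply mul_le_mul_of_nonneg_right _ (by positivity)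
      apply div_le_div_of_nonneg_right _ hκ.le
      norm_num
    refine h12.trans (hexp32.trans (Real.exp_le_exp.2 ?_))
    exact mul_le_of_le_one_left htpos.le hc1
  · rw [← ht]
    have h12 := f6 l h6
    have h15 : (1 : ℝ) ≤ Real.exp (1 / 3 * l) := Real.one_le_exp (by positivity)
    have h13 : 24 ≤ κ * Real.exp (5 / 12 * l) := by
      have := mul_le_mul_of_nonneg_left h12 hκ.le
      have h14 : κ * (24 / κ) = 24 := by field_simp
      linarith
    calc 8 * ((K : ℝ) + 2) ≤ 24 * Real.exp (1 / 3 * l) := by linarith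
      _ ≤ κ * Real.exp (5 / 12 * l) * Real.exp (1 / 3 * l) :=
          mul_le_mul_of_nonneg_right h13 (Real.exp_pos _).le
      _ = κ * Real.exp (3 / 4 * l) := by rw [mul_assoc, ← Real.exp_add]; congr 2; ring
      _ ≤ κ * t := mul_le_mul_of_nonneg_left htlow hκ.le
  · rw [← ht, ← hE]
    have h12 : C1 * (E / l) ≤ ε1 / 10 * E := by
      have h13 : 10 * C1 ≤ l * ε1 := by rwa [div_le_iff₀ hε1] at h11
      rw [← mul_div_assoc, div_le_iff₀ hlpos]
      have := mul_le_mul_of_nonneg_right h13 hE0.le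
      nlinarith
    have h13 : 1 ≤ ε1 / 10 * E := by
      have := f10 l h10
      rw [one_mul, ← hE] at this
      rw [div_le_iff₀ hε1] at this
      linarith
    linarith
  · rw [← ht]
    have h12 := f8 l h8
    have h13 : 2 * |H| ≤ κ6 * Real.exp (1 / 12 * l) := by
      have := mul_le_mul_of_nonneg_left h12 hκ6.le
      have h14 : κ6 * (2 * |H| / κ6) = 2 * |H| := by field_simp
      linarith
    have h14 : (K : ℝ) ^ 2 ≤ Real.exp (2 / 3 * l) := by
      calc (K : ℝ) ^ 2 ≤ (Real.exp (1 / 3 * l)) ^ 2 := pow_le_pow_left₀ hKpos.le hKup 2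
        _ = Real.exp (2 / 3 * l) := by rw [← Real.exp_nat_mul]; congr 1; push_cast; ring
    have h16 : H * (K : ℝ) ^ 2 ≤ |H| * (K : ℝ) ^ 2 :=
      mul_le_mul_of_nonneg_right (le_abs_self H) (by positivity)
    have h17 : |H| * (K : ℝ) ^ 2 ≤ |H| * Real.exp (2 / 3 * l) :=
      mul_le_mul_of_nonneg_left h14 (abs_nonneg _)
    have h18 : |H| * Real.exp (2 / 3 * l) ≤ κ6 / 2 * Real.exp (1 / 12 * l) *
        Real.exp (2 / 3 * l) := by
      apply mul_le_mul_of_nonneg_right _ (Real.exp_pos _).le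
      linarith
    have h19 : κ6 / 2 * Real.exp (1 / 12 * l) * Real.exp (2 / 3 * l) =
        κ6 / 2 * Real.exp (3 / 4 * l) := by
      rw [mul_assoc, ← Real.exp_add]; congr 2; ring
    have h20 : κ6 / 2 * Real.exp (3 / 4 * l) ≤ κ6 / 2 * t :=
      mul_le_mul_of_nonneg_left htlow (by positivity)
    linarith

end Pool.Agent.Helper15.SA
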