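import Pool.Agent.Helper79.EM.GrowthX
import Pool.Agent.Helper15.SA.Defs

set_option autoImplicit false

/-!
# SA-5 Sums: dilations and `X + kA`
-/

namespace Pool.Agent.Helper15.SA

open Finset Pool.Agent.Helper79.EM

theorem card_dilate {M : ℤ} (hM : M ≠ 0) (B : Finset ℤ) : (dilate M B).card = B.card := by
  unfold dilate
  apply card_image_of_injective
  intro x y h
  exact mul_left_cancel₀ hM h

theorem dilate_nonempty {M : ℤ} {B : Finset ℤ} (hB : B.Nonempty) : (dilate M B).Nonempty := by
  unfold dilate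
  exact hB.image _

theorem numX_dilate_le (M : ℤ) (X A : Finset ℤ) (k : ℕ) :
    numX (dilate M X) (dilate M A) k ≤ numX X A k := by
  classical
  unfold numX
  have hsub : ((dilate M X ×ˢ Fintype.piFinset (fun _ : Fin k => dilate M A)).image
      (fun f : ℤ × (Fin k → ℤ) => f.1 + ∑ i, f.2 i)) ⊆
      ((X ×ˢ Fintype.piFinset (fun _ : Fin k => A)).image
        (fun f : ℤ × (Fin k → ℤ) => f.1 + ∑ i, f.2 i)).image (fun w => M * w) := by
    intro w hw
    rw [mem_image] at hw
    obtain ⟨⟨x, f⟩, hf, rfl⟩ := hw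
    rw [mem_product, Fintype.mem_piFinset] at hf
    obtain ⟨hx, hf⟩ := hf
    simp only [dilate, mem_image] at hx hf
    obtain ⟨x', hx', rfl⟩ := hx
    choose g hg hgf using hf
    rw [mem_image]
    refine ⟨x' + ∑ i, g i, ?_, ?_⟩
    · rw [mem_image]
      exact ⟨(x', g), mem_product.2 ⟨hx', Fintype.mem_piFinset.2 hg⟩, rfl⟩
    · simp only
      rw [mul_add, mul_sum]
      congr 1
      apply sum_congr rfl
      intro i _
      exact hgf i
  exact_mod_cast (card_le_card hsub).trans card_image_le

end Pool.Agent.Helper15.SA
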