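import Pool.Agent.Helper15.SA.StructS
import Pool.Agent.Helper15.SA.GrowthS
import Pool.Agent.Helper15.SA.Sums
import Pool.Agent.Helper15.SA.Num
import Pool.Agent.Helper79.EMS.Twist2

set_option autoImplicit false

/-!
# SA-6 Main: many acting primes, or acting exchanges, make `X + kA` large
-/

namespace Pool.Agent.Helper15.SA

open Finset Pool.Agent.Helper80.DR Pool.Agent.Helper79.EM

/-- [SA-6a] -/
theorem acting_one (k : ℕ) (ε κ b : ℝ) (H : ℕ) (hε : 0 < ε) (hκ : 0 < κ)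
    (hb : 0 ≤ b) :
    ∃ C c : ℝ, 0 < C ∧ 0 < c ∧ ∀ (B X : Finset ℤ) (T : Finset ℕ) (u v : ℕ → ℕ), B.Nonempty →
      (0 : ℤ) ∉ B → X.Nonempty → (X.card : ℝ) ≤ (B.card : ℝ) ^ b → (∀ p ∈ T, p.Prime) →
      C * Real.log (B.card : ℝ) ≤ T.card * Real.log (Real.log (B.card : ℝ)) →
      (∀ p ∈ T, ∀ r ∈ T, ¬ p ∣ u r ∧ ¬ p ∣ v r) →
      (∀ q ∈ T, ∀ r ∈ T, q ≠ r → (T.filter (fun p => q < p ∧ r < p ∧
          (p : ℤ) ∣ (q : ℤ) * u q * v r - (r : ℤ) * u r * v q)).card ≤ H) →
      (∀ p ∈ T, κ * (B.card : ℝ) ≤ ((B.filter (fun x => ∃ y ∈ B,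
        (p : ℤ) * (u p : ℤ) * x = (v p : ℤ) * y)).card : ℝ)) →
      c * X.card * (B.card : ℝ) ^ ((k : ℝ) - ε) ≤ numX X B k := by
  classical
  obtain ⟨ε1, hε1, hε1', hgrow⟩ := growthS k b ε hb hε
  obtain ⟨κ', hκ'⟩ : ∃ κ' : ℝ, κ' = min κ 1 := ⟨_, rfl⟩
  have hκ'0 : 0 < κ' := by rw [hκ']; exact lt_min hκ one_pos
  have hκ'1 : κ' ≤ 1 := by rw [hκ']; exact min_le_right _ _
  have hκ'κ : κ' ≤ κ := by rw [hκ']; exact min_le_left _ _
  obtain ⟨κ6, hκ6, hcube⟩ := cube_gen κ' hκ'0 hκ'1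
  obtain ⟨kb, hkb⟩ : ∃ kb : ℝ, kb = (k : ℝ) + b + 1 := ⟨_, rfl⟩
  have hkb0 : 0 < kb := by rw [hkb]; positivity
  obtain ⟨C, hC⟩ : ∃ C : ℝ, C = 128 * kb / (ε1 * κ6) := ⟨_, rfl⟩
  have hC0 : 0 < C := by rw [hC]; positivity
  obtain ⟨l0, hl0, hnum⟩ := num κ' κ6 ε1 kb H hκ'0 hκ'1 hκ6 hε1 hkb0 C (le_of_eq hC.symm)
  refine ⟨C, min 1 (Real.exp (-(k * Real.exp l0))), hC0, lt_min one_pos (Real.exp_pos _), ?_⟩
  intro B X T u v hB h0 hX hXb hTp hTc huv hH hedge
  have hB1 : (1 : ℝ) ≤ B.card := by exact_mod_cast hB.card_pos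
  have hB0 : (0 : ℝ) < B.card := by linarith
  have hX1 : (1 : ℝ) ≤ X.card := by exact_mod_cast hX.card_pos
  have hpowpos : (0 : ℝ) < (B.card : ℝ) ^ ((k : ℝ) - ε) := Real.rpow_pos_of_pos hB0 _
  rcases lt_or_ge (Real.exp l0) (Real.log (B.card : ℝ)) with h | h
  · -- the main case
    have hLpos : 0 < Real.log (B.card : ℝ) := (Real.exp_pos _).trans h
    obtain ⟨l, hl⟩ : ∃ l : ℝ, l = Real.log (Real.log (B.card : ℝ)) := ⟨_, rfl⟩
    have hexpl : Real.exp l = Real.log (B.card : ℝ) := by rw [hl, Real.exp_log hLpos]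
    have hl0l : l0 ≤ l := by
      rw [hl, Real.le_log_iff_exp_le hLpos]
      exact h.le
    have hlpos : 0 < l := by linarith
    rw [← hl, ← hexpl] at hTc
    have hCn : C * (Real.exp l / l) ≤ T.card := by
      rw [← mul_div_assoc, div_le_iff₀ hlpos]
      exact hTc
    have hn : ⌈C * (Real.exp l / l)⌉₊ ≤ T.card := by
      rw [Nat.ceil_le]
      exact hCn
    obtain ⟨T', hT', hT'c⟩ := Finset.exists_subset_card_eq hn
    have hlow : C * (Real.exp l / l) ≤ (T'.card : ℝ) := by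
      rw [hT'c]
      exact Nat.le_ceil _
    have hup : (T'.card : ℝ) ≤ C * (Real.exp l / l) + 1 := by
      rw [hT'c]
      exact (Nat.ceil_lt_add_one (by positivity)).le
    obtain ⟨K, hK, hK1, hK2, hK3, hK4, hK5, hK6⟩ := hnum l hl0l T'.card hlow hup
    obtain ⟨R, hinj, h0', hedge', htwist⟩ := Pool.Agent.Helper79.EMS.twist_main T'
      (fun p hp => hTp p (hT' hp)) u v (fun p hp r hr => (huv p (hT' hp) r (hT' hr)).1)
      (fun p hp r hr => (huv p (hT' hp) r (hT' hr)).2) B h0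
    obtain ⟨B', hB'⟩ : ∃ B' : Finset ℤ, B' = B.image (twist T' u v R) := ⟨_, rfl⟩
    rw [← hB'] at h0' hedge' htwist
    have hB'c : B'.card = B.card := by rw [hB']; exact card_image_of_injOn hinj
    have hB'ne : B'.Nonempty := by rw [← card_pos, hB'c]; exact hB.card_pos
    have hn0 : (0 : ℝ) < T'.card := by
      have : 0 < C * (Real.exp l / l) := by positivity
      linarith
    have hcb := hcube K ε1 B' T' hK hε1 h0' hB'ne (fun p hp => hTp p (hT' hp))
      (by rw [hB'c]; exact hLpos) hK2 hK3 hK4 (by rw [hB'c, ← hexpl]; exact hK5) (by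
        intro p hp
        rw [hB'c]
        have e1 := hedge p (hT' hp)
        have e2 : κ' * (B.card : ℝ) ≤ κ * (B.card : ℝ) :=
          mul_le_mul_of_nonneg_right hκ'κ hB0.le
        have e3 := hedge' p hp
        have e4 : ((B.filter (fun x => ∃ y ∈ B, (p : ℤ) * (u p : ℤ) * x =
          (v p : ℤ) * y)).card : ℝ) ≤ ((B'.filter (fun z => (p : ℤ) * z ∈ B')).card : ℝ) := by
          exact_mod_cast e3
        linarith)
    obtain ⟨M, hM, hst⟩ := htwist K ε1 (κ6 * T'.card) H (by omega) hcb (by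
        rw [Real.rpow_def_of_pos hB0, ← hexpl]
        have e1 : (2 : ℝ) ^ T'.card = Real.exp (T'.card * Real.log 2) := by
          rw [Real.exp_nat_mul, Real.exp_log (by norm_num)]
        rw [e1]
        apply Real.exp_le_exp.2
        have e2 : Real.log 2 < 0.7 := by have := Real.log_two_lt_d9; linarith
        nlinarith) hLpos (by
        intro q hq r hr hqr
        exact (card_le_card (filter_subset_filter _ hT')).trans
          (hH q (hT' hq) r (hT' hr) hqr)) hK6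
    have hMc := card_dilate hM B
    have hMX := card_dilate hM X
    have hfin := hgrow (κ6 * T'.card / 2 / Real.log (B.card : ℝ)) K (by positivity) (by omega)
      (node_exists2_explicit _ (by positivity) K (by
        rw [← hexpl, ← hkb]
        exact hK1))
      (dilate M B) (dilate M X) (dilate_nonempty hB) (dilate_nonempty hX) (by
        rw [hMc, hMX]
        exact hXb) (by exact hst)
    rw [hMc, hMX] at hfin
    refine le_trans ?_ (hfin.trans (numX_dilate_le M X B k))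
    refine mul_le_mul_of_nonneg_right ?_ hpowpos.le
    calc min 1 (Real.exp (-(k * Real.exp l0))) * (X.card : ℝ) ≤ 1 * X.card :=
          mul_le_mul_of_nonneg_right (min_le_left _ _) (by linarith)
      _ = X.card := one_mul _
  · -- small sets
    refine le_trans ?_ (card_le_numX X B k hB)
    have h2 : (B.card : ℝ) ^ ((k : ℝ) - ε) ≤ Real.exp (k * Real.exp l0) := by
      calc (B.card : ℝ) ^ ((k : ℝ) - ε) ≤ (B.card : ℝ) ^ (k : ℝ) :=
            Real.rpow_le_rpow_of_exponent_le hB1 (by linarith)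
        _ = Real.exp (Real.log (B.card : ℝ) * k) := Real.rpow_def_of_pos hB0 _
        _ ≤ Real.exp (k * Real.exp l0) := by
            apply Real.exp_le_exp.2
            rw [mul_comm]
            exact mul_le_mul_of_nonneg_left h (Nat.cast_nonneg _)
    have h3 : min 1 (Real.exp (-(k * Real.exp l0))) * (B.card : ℝ) ^ ((k : ℝ) - ε) ≤ 1 := by
      calc min 1 (Real.exp (-(k * Real.exp l0))) * (B.card : ℝ) ^ ((k : ℝ) - ε)
          ≤ Real.exp (-(k * Real.exp l0)) * Real.exp (k * Real.exp l0) :=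
            mul_le_mul (min_le_right _ _) h2 hpowpos.le (Real.exp_pos _).le
        _ = 1 := by rw [← Real.exp_add, neg_add_cancel, Real.exp_zero]
    calc min 1 (Real.exp (-(k * Real.exp l0))) * (X.card : ℝ) * (B.card : ℝ) ^ ((k : ℝ) - ε)
        = (min 1 (Real.exp (-(k * Real.exp l0))) * (B.card : ℝ) ^ ((k : ℝ) - ε)) * X.card := by
          ring
      _ ≤ 1 * X.card := mul_le_mul_of_nonneg_right h3 (by linarith)
      _ = X.card := one_mul _

/-- **Many acting primes, or acting exchanges, make `X + kA` large.** -/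
theorem acting_sharp (k : ℕ) (ε κ b : ℝ) (H : ℕ) (hε : 0 < ε) (hκ : 0 < κ) :
    ∃ C c : ℝ, 0 < C ∧ 0 < c ∧ ∀ A B X : Finset ℤ, A.Nonempty → B ⊆ A → (0 : ℤ) ∉ B →
      (A.card : ℝ) ^ (1 - c) ≤ (B.card : ℝ) → X.Nonempty → (X.card : ℝ) ≤ (A.card : ℝ) ^ b →
      ∀ (T : Finset ℕ) (u v : ℕ → ℕ), (∀ p ∈ T, p.Prime) →
      C * Real.log (A.card : ℝ) ≤ T.card * Real.log (Real.log (A.card : ℝ)) →
      (∀ p ∈ T, ∀ r ∈ T, ¬ p ∣ u r ∧ ¬ p ∣ v r) →
      (∀ q ∈ T, ∀ r ∈ T, q ≠ r → (T.filter (fun p => q < p ∧ r < p ∧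
          (p : ℤ) ∣ (q : ℤ) * u q * v r - (r : ℤ) * u r * v q)).card ≤ H) →
      (∀ p ∈ T, κ * (B.card : ℝ) ≤ ((B.filter (fun x => ∃ y ∈ B,
        (p : ℤ) * (u p : ℤ) * x = (v p : ℤ) * y)).card : ℝ)) →
      c * X.card * (A.card : ℝ) ^ ((k : ℝ) - ε) ≤ numX X A k := by
  by_cases hεk : (k : ℝ) ≤ ε
  · refine ⟨1, 1, one_pos, one_pos, ?_⟩
    intro A B X hA _ _ _ hX _ T u v _ _ _ _ _
    refine le_trans ?_ (card_le_numX X A k hA)
    have hA1 : (1 : ℝ) ≤ A.card := by exact_mod_cast hA.card_pos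
    have h1 : (A.card : ℝ) ^ ((k : ℝ) - ε) ≤ 1 :=
      Real.rpow_le_one_of_one_le_of_nonpos hA1 (by linarith)
    have hX0 : (0 : ℝ) ≤ X.card := by positivity
    rw [one_mul]
    exact mul_le_of_le_one_right hX0 h1
  push Not at hεk
  have hk0 : (0 : ℝ) < k := by linarith
  obtain ⟨C2, c2, hC2, hc2, hE2⟩ := acting_one k (ε / 2) κ (2 * max b 0) H (by positivity) hκ
    (by positivity)
  obtain ⟨c, hcdef⟩ : ∃ c : ℝ, c = min (min c2 (Real.exp (-(4 * k)))) (min (1 / 2)
    (ε / (2 * k))) := ⟨_, rfl⟩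
  have hcpos : 0 < c := by rw [hcdef]; positivity
  have hcb : c ≤ c2 := by rw [hcdef]; exact (min_le_left _ _).trans (min_le_left _ _)
  have hcf : c ≤ Real.exp (-(4 * k)) := by
    rw [hcdef]; exact (min_le_left _ _).trans (min_le_right _ _)
  have hcd : c ≤ 1 / 2 := by rw [hcdef]; exact (min_le_right _ _).trans (min_le_left _ _)
  have hce : c ≤ ε / (2 * k) := by rw [hcdef]; exact (min_le_right _ _).trans (min_le_right _ _)
  refine ⟨2 * C2, c, by positivity, hcpos, ?_⟩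
  intro A B X hA hBA hB0 hcard hX hXb T u v hTp hTc huv hH hedge
  have hA1 : (1 : ℝ) ≤ A.card := by exact_mod_cast hA.card_pos
  have hA0 : (0 : ℝ) < A.card := by linarith
  have hX0 : (0 : ℝ) ≤ X.card := by positivity
  rcases lt_or_ge (Real.log (A.card : ℝ)) 4 with hsm | hbig
  · -- small sets
    refine le_trans ?_ (card_le_numX X A k hA)
    have h2 : (A.card : ℝ) ^ ((k : ℝ) - ε) ≤ Real.exp (4 * k) := by
      calc (A.card : ℝ) ^ ((k : ℝ) - ε) ≤ (A.card : ℝ) ^ (k : ℝ) :=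
            Real.rpow_le_rpow_of_exponent_le hA1 (by linarith)
        _ = Real.exp (Real.log (A.card : ℝ) * k) := Real.rpow_def_of_pos hA0 _
        _ ≤ Real.exp (4 * k) := by
            apply Real.exp_le_exp.2
            exact mul_le_mul_of_nonneg_right hsm.le hk0.le
    have hpowpos : (0 : ℝ) < (A.card : ℝ) ^ ((k : ℝ) - ε) := Real.rpow_pos_of_pos hA0 _
    have h3 : c * (A.card : ℝ) ^ ((k : ℝ) - ε) ≤ 1 := by
      calc c * (A.card : ℝ) ^ ((k : ℝ) - ε)
          ≤ Real.exp (-(4 * k)) * Real.exp (4 * k) :=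
            mul_le_mul hcf h2 hpowpos.le (Real.exp_pos _).le
        _ = 1 := by rw [← Real.exp_add, neg_add_cancel, Real.exp_zero]
    calc c * (X.card : ℝ) * (A.card : ℝ) ^ ((k : ℝ) - ε)
        = (c * (A.card : ℝ) ^ ((k : ℝ) - ε)) * X.card := by ring
      _ ≤ 1 * X.card := mul_le_mul_of_nonneg_right h3 hX0
      _ = X.card := one_mul _
  have hBpos : (0 : ℝ) < B.card := lt_of_lt_of_le (Real.rpow_pos_of_pos hA0 _) hcard
  have hBne : B.Nonempty := by rw [← card_pos]; exact_mod_cast hBpos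
  have hB1 : (1 : ℝ) ≤ B.card := by exact_mod_cast hBne.card_pos
  have hBAc : (B.card : ℝ) ≤ A.card := by exact_mod_cast card_le_card hBA
  have hLB : Real.log (B.card : ℝ) ≤ Real.log (A.card : ℝ) := Real.log_le_log hBpos hBAc
  -- the logarithms
  have hLB2 : Real.log (A.card : ℝ) / 2 ≤ Real.log (B.card : ℝ) := by
    have h1 := Real.log_le_log (Real.rpow_pos_of_pos hA0 _) hcard
    rw [Real.log_rpow hA0] at h1
    have h2 : 1 / 2 * Real.log (A.card : ℝ) ≤ (1 - c) * Real.log (A.card : ℝ) :=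
      mul_le_mul_of_nonneg_right (by linarith) (by linarith)
    linarith
  have hLpos : 0 < Real.log (A.card : ℝ) := by linarith
  have hll : Real.log (Real.log (A.card : ℝ)) ≤ 2 * Real.log (Real.log (B.card : ℝ)) := by
    have h1 : Real.log (Real.log (A.card : ℝ) / 2) ≤ Real.log (Real.log (B.card : ℝ)) :=
      Real.log_le_log (by linarith) hLB2
    rw [Real.log_div hLpos.ne' (by norm_num)] at h1
    have h2 : 2 * Real.log 2 ≤ Real.log (Real.log (A.card : ℝ)) := by
      have h3 : Real.log 4 ≤ Real.log (Real.log (A.card : ℝ)) :=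
        Real.log_le_log (by norm_num) hbig
      have h4 : Real.log 4 = 2 * Real.log 2 := by
        rw [show (4 : ℝ) = 2 ^ 2 by norm_num, Real.log_pow]
        push_cast
        ring
      linarith
    linarith
  have hTc' : C2 * Real.log (B.card : ℝ) ≤ T.card * Real.log (Real.log (B.card : ℝ)) := by
    have h1 : C2 * Real.log (B.card : ℝ) ≤ C2 * Real.log (A.card : ℝ) :=
      mul_le_mul_of_nonneg_left hLB hC2.le
    have h2 : (T.card : ℝ) * Real.log (Real.log (A.card : ℝ)) ≤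
        T.card * (2 * Real.log (Real.log (B.card : ℝ))) :=
      mul_le_mul_of_nonneg_left hll (Nat.cast_nonneg _)
    linarith
  have hXB : (X.card : ℝ) ≤ (B.card : ℝ) ^ (2 * max b 0) := by
    refine hXb.trans ?_
    have h1 : (A.card : ℝ) ^ b ≤ (A.card : ℝ) ^ ((1 - c) * (2 * max b 0)) := by
      apply Real.rpow_le_rpow_of_exponent_le hA1
      have h2 : b ≤ max b 0 := le_max_left _ _
      have h3 : 0 ≤ max b 0 := le_max_right _ _
      nlinarith
    refine h1.trans ?_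
    rw [Real.rpow_mul hA0.le]
    exact Real.rpow_le_rpow (Real.rpow_nonneg hA0.le _) hcard (by positivity)
  have hkey := hE2 B X T u v hBne hB0 hX hXB hTp hTc' huv hH hedge
  have hsub : numX X B k ≤ numX X A k := by
    unfold numX
    have h1 : ((X ×ˢ Fintype.piFinset (fun _ : Fin k => B)).image
        (fun f : ℤ × (Fin k → ℤ) => f.1 + ∑ i, f.2 i)) ⊆
        ((X ×ˢ Fintype.piFinset (fun _ : Fin k => A)).image
        (fun f : ℤ × (Fin k → ℤ) => f.1 + ∑ i, f.2 i)) := by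
      apply image_subset_image
      intro f hf
      rw [mem_product, Fintype.mem_piFinset] at hf ⊢
      exact ⟨hf.1, fun i => hBA (hf.2 i)⟩
    exact_mod_cast card_le_card h1
  refine le_trans ?_ (hkey.trans hsub)
  have h1 : (A.card : ℝ) ^ ((k : ℝ) - ε) ≤ (B.card : ℝ) ^ ((k : ℝ) - ε / 2) := by
    have h2 : ((A.card : ℝ) ^ (1 - c)) ^ ((k : ℝ) - ε / 2) ≤
        (B.card : ℝ) ^ ((k : ℝ) - ε / 2) :=
      Real.rpow_le_rpow (Real.rpow_nonneg hA0.le _) hcard (by linarith)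
    refine le_trans ?_ h2
    rw [← Real.rpow_mul hA0.le]
    apply Real.rpow_le_rpow_of_exponent_le hA1
    have h3 : c * k ≤ ε / 2 := by
      have := mul_le_mul_of_nonneg_right hce hk0.le
      have h4 : ε / (2 * k) * k = ε / 2 := by field_simp
      linarith
    have h5 : c * (ε / 2) ≥ 0 := by positivity
    nlinarith
  exact mul_le_mul (mul_le_mul_of_nonneg_right hcb hX0) h1 (Real.rpow_nonneg hA0.le _)
    (by positivity)

end Pool.Agent.Helper15.SA
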