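import Pool.Agent.Helper79.EM.Edge
import Pool.Agent.Helper80.DR.ChooseSum
import Pool.Agent.Helper80.DR.Fibres
import Pool.Agent.Helper15.SA.Defs

set_option autoImplicit false

/-!
# SA-2 StructS: `Helper79/EM/StructE.lean` for an arbitrary number `t` of acting primes and an
arbitrary number `K` of multipliers with `t ^ K ≤ exp (c t)`, `t ≤ c log |A|`
-/

namespace Pool.Agent.Helper15.SA

open Finset Pool.Agent.Helper80.DR Pool.Agent.Helper79.EM

/-- [SA-2] -/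
theorem cube_gen (κ : ℝ) (hκ : 0 < κ) (hκ1 : κ ≤ 1) :
    ∃ κ6 : ℝ, 0 < κ6 ∧ ∀ (K : ℕ) (ε : ℝ) (A : Finset ℤ) (T : Finset ℕ), 1 ≤ K → 0 < ε →
      (0 : ℤ) ∉ A → A.Nonempty → (∀ p ∈ T, p.Prime) → 0 < Real.log (A.card : ℝ) →
      32 / κ * (T.card : ℝ) ^ K ≤ Real.exp (3 / 4 * (κ / 8 * Real.log 2) * T.card) →
      8 / κ * (T.card : ℝ) ^ K ≤ Real.exp (T.card : ℝ) →
      8 * ((K : ℝ) + 2) ≤ κ * T.card → 5 * (T.card : ℝ) ≤ ε * Real.log (A.card : ℝ) →
      (∀ p ∈ T, κ * (A.card : ℝ) ≤ ((A.filter (fun b => (p : ℤ) * b ∈ A)).card : ℝ)) →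
      Cube A T K ε (κ6 * T.card) := by
  classical
  obtain ⟨l2, hl2⟩ : ∃ l2 : ℝ, l2 = Real.log 2 := ⟨_, rfl⟩
  have hl2a : 0.69 < l2 := by rw [hl2]; have := Real.log_two_gt_d9; linarith
  have hl2b : l2 < 0.7 := by rw [hl2]; have := Real.log_two_lt_d9; linarith
  have hl20 : 0 < l2 := by linarith
  obtain ⟨ρ, hρ⟩ : ∃ ρ : ℝ, ρ = κ / 8 * l2 := ⟨_, rfl⟩
  have hρ0 : 0 < ρ := by rw [hρ]; positivity
  obtain ⟨κ6, hκ6, hκ6', hcs6⟩ := choose_sum (ρ / 4) (by positivity)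
  refine ⟨κ6, hκ6, ?_⟩
  intro K ε A T hK hε h0 hne hTp hLpos hT2 hT3 htκ hεt hedge
  rw [← hl2, ← hρ] at hT2
  obtain ⟨N, hN⟩ : ∃ N : ℝ, N = (A.card : ℝ) := ⟨_, rfl⟩
  obtain ⟨L, hLd⟩ : ∃ L : ℝ, L = Real.log N := ⟨_, rfl⟩
  obtain ⟨t, ht⟩ : ∃ t : ℝ, t = (T.card : ℝ) := ⟨_, rfl⟩
  have hN0 : 0 < N := by
    rw [hN]
    exact_mod_cast hne.card_pos
  rw [← hN, ← hLd] at hLpos hεt
  rw [← ht] at hT2 hT3 htκ hεt
  have hNexp : N = Real.exp L := by rw [hLd, Real.exp_log hN0]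
  have hKR : (1 : ℝ) ≤ (K : ℝ) := by exact_mod_cast hK
  have ht0 : 0 < t := by
    by_contra hneg
    have h1 : κ * t ≤ 0 := mul_nonpos_of_nonneg_of_nonpos hκ.le (not_lt.1 hneg)
    linarith
  have hL0 : 0 < L := hLpos
  have hpow2 : ∀ n : ℕ, (2 : ℝ) ^ n = Real.exp (l2 * n) := by
    intro n
    rw [hl2, mul_comm, Real.exp_nat_mul, Real.exp_log (by norm_num)]
  -- the size of rich classes
  obtain ⟨m, hm⟩ : ∃ m : ℕ, m = ⌊κ / 8 * t⌋₊ := ⟨_, rfl⟩
  have hm1 : (m : ℝ) ≤ κ / 8 * t := by rw [hm]; exact Nat.floor_le (by positivity)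
  have hm2 : κ / 8 * t < m + 1 := by rw [hm]; exact Nat.lt_floor_add_one _
  have hlogM : Nat.log 2 (2 * 2 ^ m) = m + 1 := by
    rw [← pow_succ', Nat.log_pow (by norm_num)]
  obtain ⟨σ, J, hJT, hJK, π, hπT, hJπ, B1, hB1A, hB1ne, hB1c, hB1J, hcls⟩ :=
    exists_common A T hTp h0 hne κ hκ K (2 ^ m) hK hedge (by
      rw [hlogM, ← ht]
      push_cast
      linarith)
  rw [← hN, ← ht] at hB1c
  obtain ⟨P, hP⟩ : ∃ P : Finset ℕ, P = T.filter (fun q => π < q) := ⟨_, rfl⟩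
  rw [← hP] at hcls
  have hPT : P ⊆ T := by rw [hP]; exact Finset.filter_subset _ _
  have hPp : ∀ p ∈ P, p.Prime := fun p hp => hTp p (hPT hp)
  have h0B1 : (0 : ℤ) ∉ B1 := fun h => h0 (hB1A h)
  -- the number of classes
  have hI : ((B1.image (low σ P)).card : ℝ) ≤ 2 * N * Real.exp (-(ρ * t)) := by
    have h1 : (2 : ℝ) ^ m * ((B1.image (low σ P)).card : ℝ) ≤ N := by
      rw [hN]
      exact_mod_cast hcls
    have h2 : Real.exp (ρ * t) / 2 ≤ (2 : ℝ) ^ m := by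
      rw [hpow2]
      have h3 : Real.exp (ρ * t) / 2 = Real.exp (ρ * t - l2) := by
        rw [Real.exp_sub, hl2, Real.exp_log (by norm_num)]
      rw [h3]
      apply Real.exp_le_exp.2
      rw [hρ]
      nlinarith
    have h3 : Real.exp (ρ * t) / 2 * ((B1.image (low σ P)).card : ℝ) ≤ N :=
      (mul_le_mul_of_nonneg_right h2 (Nat.cast_nonneg _)).trans h1
    rw [Real.exp_neg, ← div_eq_mul_inv, le_div_iff₀ (Real.exp_pos _)]
    linarith
  have htK : 0 < t ^ K := pow_pos ht0 K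
  have hB1big : κ / 4 * N / t ^ K ≤ (B1.card : ℝ) := by
    rw [div_le_iff₀ htK]
    linarith
  -- the threshold
  obtain ⟨θ, hθ⟩ : ∃ θ : ℕ, θ = ⌊Real.exp (ρ / 4 * t)⌋₊ + 1 := ⟨_, rfl⟩
  have hθ1 : Real.exp (ρ / 4 * t) < θ := by
    rw [hθ]
    push_cast
    exact Nat.lt_floor_add_one _
  have hθ2 : (θ : ℝ) ≤ 2 * Real.exp (ρ / 4 * t) := by
    rw [hθ]
    push_cast
    have h1 : (⌊Real.exp (ρ / 4 * t)⌋₊ : ℝ) ≤ Real.exp (ρ / 4 * t) :=
      Nat.floor_le (Real.exp_pos _).le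
    have h2 : (1 : ℝ) ≤ Real.exp (ρ / 4 * t) := Real.one_le_exp (by positivity)
    linarith
  have hcl : 2 * θ * (B1.image (low σ P)).card ≤ B1.card := by
    have h1 : (2 * θ * (B1.image (low σ P)).card : ℝ) ≤ (B1.card : ℝ) := by
      refine le_trans ?_ hB1big
      calc (2 * θ * (B1.image (low σ P)).card : ℝ)
          ≤ 2 * (2 * Real.exp (ρ / 4 * t)) * (2 * N * Real.exp (-(ρ * t))) := by
            apply mul_le_mul _ hI (Nat.cast_nonneg _) (by positivity)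
            linarith
        _ = 8 * N * (Real.exp (ρ / 4 * t) * Real.exp (-(ρ * t))) := by ring
        _ = 8 * N * Real.exp (-(3 / 4 * ρ * t)) := by
            rw [← Real.exp_add]
            congr 2
            ring
        _ = (κ / 4 * N / t ^ K) * ((32 / κ * t ^ K) * Real.exp (-(3 / 4 * ρ * t))) := by
            field_simp
            ring
        _ ≤ (κ / 4 * N / t ^ K) * 1 := by
            apply mul_le_mul_of_nonneg_left _ (by positivity)
            rw [Real.exp_neg, ← div_eq_mul_inv, div_le_one (Real.exp_pos _)]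
            exact hT2
        _ = κ / 4 * N / t ^ K := mul_one _
    exact_mod_cast h1
  obtain ⟨s, hs⟩ : ∃ s : ℕ, s = ⌊κ6 * t⌋₊ + 1 := ⟨_, rfl⟩
  have hθs : ∑ j ∈ Finset.range s, P.card.choose j < θ := by
    have h1 : ∑ j ∈ Finset.range s, P.card.choose j ≤
        ∑ j ∈ Finset.range (⌊κ6 * t⌋₊ + 1), T.card.choose j := by
      rw [hs]
      exact Finset.sum_le_sum fun j _ => Nat.choose_le_choose j (Finset.card_le_card hPT)
    have h2 := hcs6 T.card ⌊κ6 * t⌋₊ (by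
      rw [← ht]
      exact Nat.floor_le (by positivity))
    rw [← ht] at h2
    have h3 : ((∑ j ∈ Finset.range s, P.card.choose j : ℕ) : ℝ) < (θ : ℝ) := by
      refine lt_of_le_of_lt (le_trans ?_ h2) hθ1
      exact_mod_cast h1
    exact_mod_cast h3
  obtain ⟨S, hSP, hSs, Y, hYne, hYB, hYc, hY⟩ := fibres σ P hPp B1 h0B1 hB1ne θ s hcl hθs
  have hεL : 5 * t ≤ ε * L := hεt
  rw [← ht]
  refine ⟨J, P, S, Y, hJT, hJK, hPT, hSP, ?_, ?_, hYne, ?_, hYB.trans (Finset.card_le_card hB1A),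
    ?_⟩
  · intro q hq p hp
    rw [hP, Finset.mem_filter] at hp
    exact lt_of_le_of_lt (hJπ q hq) hp.2
  · have h1 : κ6 * t < s := by
      rw [hs]
      push_cast
      exact Nat.lt_floor_add_one _
    have h2 : (s : ℝ) ≤ S.card := by exact_mod_cast hSs
    linarith
  · -- size of Y
    have h1 : (B1.card : ℝ) ≤ 2 * (4 : ℝ) ^ P.card * Y.card := by exact_mod_cast hYc
    have h2 : (4 : ℝ) ^ P.card ≤ Real.exp (1.4 * t) := by
      have h3 : (4 : ℝ) ^ P.card ≤ (4 : ℝ) ^ T.card :=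
        pow_le_pow_right₀ (by norm_num) (Finset.card_le_card hPT)
      refine h3.trans ?_
      have h4 : (4 : ℝ) ^ T.card = Real.exp (2 * l2 * t) := by
        rw [show (4 : ℝ) = 2 ^ 2 by norm_num, ← pow_mul, hpow2, ht]
        congr 1
        push_cast
        ring
      rw [h4]
      apply Real.exp_le_exp.2
      nlinarith
    have h3 : κ / 4 * N / t ^ K ≤ 2 * Real.exp (1.4 * t) * Y.card := by
      refine hB1big.trans (h1.trans ?_)
      apply mul_le_mul_of_nonneg_right _ (Nat.cast_nonneg _)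
      linarith
    have h4 := hT3
    have h5 : N ≤ Real.exp (ε * L) * Y.card := by
      have h6 : N ≤ (8 / κ * t ^ K) * Real.exp (1.4 * t) * Y.card := by
        rw [div_le_iff₀ htK] at h3
        have h7 : N = 4 / κ * (κ / 4 * N) := by field_simp
        rw [h7]
        calc 4 / κ * (κ / 4 * N) ≤ 4 / κ * (2 * Real.exp (1.4 * t) * Y.card * t ^ K) :=
              mul_le_mul_of_nonneg_left h3 (by positivity)
          _ = (8 / κ * t ^ K) * Real.exp (1.4 * t) * Y.card := by ring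
      refine h6.trans ?_
      apply mul_le_mul_of_nonneg_right _ (Nat.cast_nonneg _)
      calc (8 / κ * t ^ K) * Real.exp (1.4 * t) ≤ Real.exp t * Real.exp (1.4 * t) :=
            mul_le_mul_of_nonneg_right h4 (Real.exp_pos _).le
        _ = Real.exp (t + 1.4 * t) := (Real.exp_add _ _).symm
        _ ≤ Real.exp (ε * L) := Real.exp_le_exp.2 (by linarith)
    rw [← hN, Real.rpow_sub hN0, Real.rpow_one, div_le_iff₀ (Real.rpow_pos_of_pos hN0 _),
      Real.rpow_def_of_pos hN0, ← hLd, mul_comm L ε, mul_comm]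
    exact h5
  · intro y hy H hH
    obtain ⟨D, hDP, hDS, hDB⟩ := hY y hy H hH
    refine ⟨D, hDP, hDS, fun q hq => ?_⟩
    have h1 := hB1J _ hDB q hq
    rw [← mul_assoc] at h1
    exact h1

end Pool.Agent.Helper15.SA
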